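import Pool.Agent.R944.FF.Stm
import Pool.Agent.R944.FF.Main
import Pool.Agent.R944.FF.D0
import Pool.Agent.R944.FF.D1
import Pool.Agent.R944.FF.D2
import Pool.Agent.R944.FF.P1
import Pool.Agent.R944.FF.P2
import Pool.Agent.R944.FF.P4
import Pool.Agent.R944.FF.O1
import Pool.Agent.R944.FF.O2

/-!
First Fit for random vector packing: for every dimension `d ≥ 1`, if the items are independent and
uniform on `[0,1]^d`, then `FF(L_n)/OPT(L_n) → 1` almost surely and
`E[FF(L_n)/OPT(L_n)] → 1`.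
-/

open scoped BigOperators Topology
open MeasureTheory ProbabilityTheory Filter Pool.Agent.R944.FF

namespace Pool.Agent.Results.MP_e8f67b_lc.FirstFitOptimal

theorem result (d : ℕ) (hd : 1 ≤ d) (Ω : Type) [MeasurableSpace Ω] (P : Measure Ω)
    [IsProbabilityMeasure P] (X : ℕ → Ω → Fin d → ℝ) (hX : IIDUnif P d X) :
    (∀ᵐ ω ∂P, Tendsto (fun n : ℕ => (ffCount (fun i => X i ω) n : ℝ)
      / (opt (fun i => X i ω) n : ℝ)) atTop (𝓝 1)) ∧
    Tendsto (fun n : ℕ => ∫ ω, (ffCount (fun i => X i ω) n : ℝ)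
      / (opt (fun i => X i ω) n : ℝ) ∂P) atTop (𝓝 1) :=
  assembly D0.main D1.main D2.main P1.main P2.main.1 P2.main.2 P4.main.1 P4.main.2
    (O1.main D0.main) O2.main.1 (O2.main.2 D0.main) d hd Ω P X hX

end Pool.Agent.Results.MP_e8f67b_lc.FirstFitOptimal
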