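import Pool.Agent.R660.VP.Main

/-!
MP_e8f67b_lc, Q1 (full answer, yes): `d`-dimensional First Fit is asymptotically optimal when the
items are independent and uniformly distributed on `[0, 1] ^ d`, for every `d ≥ 1`, in particular
for every `d ≥ 2`.
-/

open MeasureTheory ProbabilityTheory Filter Topology

/-- Let `V 0, V 1, ...` be independent random vectors, each uniformly distributed on the cube
`[0, 1] ^ d`, `d ≥ 1`. The ratio of the number of bins `FF` used by `d`-dimensional First Fit for
the list `V 0, ..., V (n - 1)` and of the optimal number of bins `OPT` is a measurable, integrable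
function, and its expectation tends to `1` as `n → ∞`. -/
theorem Pool.Agent.Results.MP_e8f67b_lc.FirstFitVector.result (d : ℕ) (hd : 1 ≤ d)
    {Ω : Type*} [MeasurableSpace Ω] (P : Measure Ω) [IsProbabilityMeasure P]
    (V : ℕ → Ω → Fin d → ℝ) (hV : ∀ t, Measurable (V t)) (hind : iIndepFun V P)
    (hlaw : ∀ t, P.map (V t) = (volume : Measure (Fin d → ℝ)).restrict (Set.Icc 0 1)) :
    (∀ n, Measurable fun ω => (Pool.Agent.R660.VP.FF (fun t => V t ω) n : ℝ) /
        Pool.Agent.R660.VP.OPT (fun t => V t ω) n) ∧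
      (∀ n, Integrable (fun ω => (Pool.Agent.R660.VP.FF (fun t => V t ω) n : ℝ) /
        Pool.Agent.R660.VP.OPT (fun t => V t ω) n) P) ∧
      Tendsto (fun n => ∫ ω, (Pool.Agent.R660.VP.FF (fun t => V t ω) n : ℝ) /
        Pool.Agent.R660.VP.OPT (fun t => V t ω) n ∂P) atTop (𝓝 1) :=
  ⟨Pool.Agent.R660.VP.meas_ratio hV, Pool.Agent.R660.VP.integrable_ratio hV hlaw,
    Pool.Agent.R660.VP.main hd hV hind hlaw⟩
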